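import Pool.Agent.J4H93.HN.Stm

set_option autoImplicit false

/-! Project HN (helper93), piece FEW. -/

namespace Pool.Agent.J4H91.HN
open Finset Filter Topology Pool.Agent.J4H93.HN

/-- the number of prime divisors -/
theorem card_dv {V d : ℕ} (hd : 0 < d) : (Dv (PA V) d).card ≤ Nat.log 2 d := by
  have h1 : ∏ p ∈ Dv (PA V) d, p ∣ d := by
    apply Finset.prod_primes_dvd
    · intro p hp
      rw [Dv, mem_filter, PA, mem_filter] at hp
      exact hp.1.2.prime
    · intro p hp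
      rw [Dv, mem_filter] at hp
      exact hp.2
  have h2 : 2 ^ (Dv (PA V) d).card ≤ ∏ p ∈ Dv (PA V) d, p := by
    rw [← Finset.prod_const]
    apply Finset.prod_le_prod'
    intro p hp
    rw [Dv, mem_filter, PA, mem_filter] at hp
    exact hp.1.2.two_le
  exact Nat.le_log_of_pow_le (by norm_num) (h2.trans (Nat.le_of_dvd hd h1))

theorem t_FEW : S_ME0 → S_FEW := by
  intro ⟨h1, _⟩
  have hL : Tendsto (fun V : ℕ => Nat.log 2 V) atTop atTop := by
    rw [tendsto_atTop]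
    intro b
    filter_upwards [eventually_ge_atTop (2 ^ b)] with V hV
    exact Nat.le_log_of_pow_le (by norm_num) hV
  filter_upwards [h1.eventually_ge_atTop 1, hL.eventually_ge_atTop 200] with V hR hV d hd hd2
  set L := Nat.log 2 V with hLdef
  set r := R (PA V) with hr
  have hLpos : (0 : ℝ) < (L : ℝ) := by exact_mod_cast (by omega : 0 < L)
  -- sum
  have h3 : R (Dv (PA V) d) ≤ (Dv (PA V) d).card * (1 / (L : ℝ) ^ 3) := by
    unfold R
    rw [← nsmul_eq_mul]
    apply sum_le_card_nsmul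
    intro p hp
    rw [Dv, mem_filter, PA, mem_filter, mem_Ioc] at hp
    apply one_div_le_one_div_of_le (by positivity)
    exact_mod_cast hp.1.1.1.le
  have h4 : Nat.log 2 d ≤ 1 + (L + 1) * ⌊2 * r⌋₊ * 240 := by
    have h5 : V < 2 ^ (L + 1) := Nat.lt_pow_succ_log_self (by norm_num) V
    have h6 : d ≤ 2 ^ (1 + (L + 1) * ⌊2 * r⌋₊ * 240) := by
      refine hd2.trans ?_
      rw [pow_add, pow_one, pow_mul, pow_mul]
      gcongr
    calc Nat.log 2 d ≤ Nat.log 2 (2 ^ (1 + (L + 1) * ⌊2 * r⌋₊ * 240)) := Nat.log_mono_right h6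
      _ = _ := Nat.log_pow (by norm_num) _
  have h7 : ((Dv (PA V) d).card : ℝ) ≤ 1 + (L + 1) * (2 * r) * 240 := by
    have h8 : ((Dv (PA V) d).card : ℝ) ≤ ((1 + (L + 1) * ⌊2 * r⌋₊ * 240 : ℕ) : ℝ) := by
      exact_mod_cast (card_dv hd).trans h4
    refine h8.trans ?_
    push_cast
    have h9 : ((⌊2 * r⌋₊ : ℕ) : ℝ) ≤ 2 * r := Nat.floor_le (by linarith)
    gcongr
  have h10 : (200 : ℝ) ≤ L := by exact_mod_cast hV
  refine lt_of_le_of_lt (h3.trans (mul_le_mul_of_nonneg_right h7 (by positivity))) ?_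
  rw [mul_one_div, div_lt_div_iff₀ (by positivity) (by norm_num)]
  nlinarith [mul_nonneg (sub_nonneg.2 hR) hLpos.le, mul_pos hLpos hLpos, mul_nonneg (sub_nonneg.2 hR) (mul_pos hLpos hLpos).le, mul_nonneg (sub_nonneg.2 h10) (mul_nonneg (by linarith : (0:ℝ) ≤ r) hLpos.le), mul_nonneg (sub_nonneg.2 h10) (mul_nonneg (by linarith : (0:ℝ) ≤ r) (mul_pos hLpos hLpos).le), mul_nonneg (sub_nonneg.2 h10) (by linarith : (0:ℝ) ≤ r)]

end Pool.Agent.J4H91.HN
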